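import Mathlib

set_option autoImplicit false

namespace Pool.Agent.Results.MP_62e324_al.Pos

open Matrix Function

def RSRC (A : Type*) [Ring A] : Prop :=
  ∀ n, 1 ≤ n → ∀ f : (Fin (n + 1) → A) →ₗ[Aᵐᵒᵖ] (Fin n → A), ¬ Injective f

section
variable {R S : Type*} [Ring R] [Ring S] (ι : R →+* S) (x : S)

def V (d : ℕ) : AddSubgroup S := AddSubgroup.closure {s | ∃ k ≤ d, ∃ r, s = x ^ k * ι r}

lemma V_mono {a b : ℕ} (h : a ≤ b) : V ι x a ≤ V ι x b :=
  AddSubgroup.closure_mono fun _ ⟨k, hk, h'⟩ => ⟨k, hk.trans h, h'⟩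

lemma V_ind {a b : ℕ} (u w : S) (h : ∀ k ≤ a, ∀ r, u * (x ^ k * ι r) * w ∈ V ι x b) {s : S}
    (hs : s ∈ V ι x a) : u * s * w ∈ V ι x b := by
  induction hs using AddSubgroup.closure_induction with
  | mem s hs => obtain ⟨k, hk, r, rfl⟩ := hs; exact h k hk r
  | zero => simp
  | add s t _ _ h1 h2 => rw [mul_add, add_mul]; exact add_mem h1 h2
  | neg s _ h1 => rw [mul_neg, neg_mul]; exact neg_mem h1

lemma V_pow (k a : ℕ) {s : S} (hs : s ∈ V ι x a) : x ^ k * s ∈ V ι x (k + a) := by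
  simpa using V_ind ι x (x ^ k) 1 (fun l hl r => AddSubgroup.subset_closure
    ⟨k + l, by omega, r, by rw [mul_one, pow_add, mul_assoc]⟩) hs

lemma V_rep {d : ℕ} {s : S} (hs : s ∈ V ι x d) :
    ∃ c : Fin (d + 1) → R, s = ∑ k, x ^ k.val * ι (c k) := by
  induction hs using AddSubgroup.closure_induction with
  | mem s hs =>
    obtain ⟨k, hk, r, rfl⟩ := hs
    refine ⟨Pi.single ⟨k, by omega⟩ r, ?_⟩
    rw [Finset.sum_eq_single ⟨k, by omega⟩ (fun b _ hb => by simp [hb]) (by simp)]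
    simp
  | zero => exact ⟨0, by simp⟩
  | add s t _ _ h1 h2 =>
    obtain ⟨c, rfl⟩ := h1
    obtain ⟨c', rfl⟩ := h2
    exact ⟨c + c', by simp [mul_add, Finset.sum_add_distrib]⟩
  | neg s _ h1 =>
    obtain ⟨c, rfl⟩ := h1
    exact ⟨-c, by simp⟩

variable {σ : R →+* R} {δ : R → R} (hσ : Surjective σ)
  (hx : ∀ r, x * ι r = ι (σ r) * x + ι (δ r))
include hσ hx

lemma V_left (k : ℕ) : ∀ r, ι r * x ^ k ∈ V ι x k := by
  induction k with
  | zero => exact fun r => AddSubgroup.subset_closure ⟨0, le_rfl, r, by simp⟩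
  | succ k ih =>
    intro r
    obtain ⟨r, rfl⟩ := hσ r
    have : ι (σ r) * x ^ (k + 1) = x ^ 1 * (ι r * x ^ k) - ι (δ r) * x ^ k := by
      rw [pow_one, ← mul_assoc, hx, pow_succ']; noncomm_ring
    rw [this]
    exact sub_mem (by simpa [add_comm] using V_pow ι x 1 k (ih r)) (V_mono ι x (by omega) (ih _))

lemma V_mul {a b : ℕ} {s t : S} (hs : s ∈ V ι x a) (ht : t ∈ V ι x b) :
    s * t ∈ V ι x (a + b) := by
  have h1 : ∀ r, ι r * t ∈ V ι x b := fun r => by
    simpa using V_ind ι x (ι r) 1 (fun l hl r' => by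
      have := V_ind ι x 1 (ι r') (fun m hm r'' => AddSubgroup.subset_closure
        ⟨m, hm.trans hl, r'' * r', by simp [mul_assoc]⟩) (V_left ι x hσ hx l r)
      simpa [mul_assoc] using this) ht
  simpa using V_ind ι x 1 t (fun k hk r => by
    simpa [mul_assoc] using V_mono ι x (by omega) (V_pow ι x k b (h1 r))) hs

omit hσ hx

def P (a b d : ℕ) : Prop :=
  ∃ M : Matrix (Fin b) (Fin a) S, (∀ i j, M i j ∈ V ι x d) ∧ ∀ v, M *ᵥ v = 0 → v = 0

lemma P_mul {a b d : ℕ} (c : ℕ) (h : P ι x a b d) : P ι x (c * a) (c * b) d := by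
  obtain ⟨M, h1, h2⟩ := h
  refine ⟨Matrix.of fun i j => if (finProdFinEquiv.symm i).1 = (finProdFinEquiv.symm j).1 then
    M (finProdFinEquiv.symm i).2 (finProdFinEquiv.symm j).2 else 0, fun i j => ?_, fun v hv => ?_⟩
  · rw [of_apply]
    split_ifs
    exacts [h1 _ _, zero_mem _]
  · funext j
    obtain ⟨⟨l, j⟩, rfl⟩ := finProdFinEquiv.surjective j
    refine congrFun (h2 (fun j => v (finProdFinEquiv (l, j))) (funext fun i => ?_)) j
    have := congrFun hv (finProdFinEquiv (l, i))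
    simp only [mulVec, dotProduct, of_apply, Equiv.symm_apply_apply] at this ⊢
    rw [← finProdFinEquiv.sum_comp, Fintype.sum_prod_type] at this
    simpa using this

include hσ hx in
lemma P_pow {n d : ℕ} (h : P ι x (n + 1) n d) (t : ℕ) :
    P ι x ((n + 1) ^ t) (n ^ t) (t * d) := by
  induction t with
  | zero =>
    rw [pow_zero, pow_zero]
    refine ⟨1, fun i j => ?_, by simp⟩
    rw [Matrix.one_apply]
    split_ifs
    exacts [AddSubgroup.subset_closure ⟨0, by simp, 1, by simp⟩, zero_mem _]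
  | succ t ih =>
    have h1 := P_mul ι x (n + 1) ih
    have h2 := P_mul ι x (n ^ t) h
    rw [← pow_succ', mul_comm] at h1
    rw [← pow_succ] at h2
    obtain ⟨M, a1, a2⟩ := h1
    obtain ⟨N, b1, b2⟩ := h2
    refine ⟨N * M, fun i j => ?_, fun v hv => a2 _ (b2 _ (by rwa [mulVec_mulVec]))⟩
    rw [mul_apply, show (t + 1) * d = d + t * d by ring]
    exact sum_mem fun k _ => V_mul ι x hσ hx (b1 _ _) (a1 _ _)

lemma P_le (hι : Injective ι) (hR : RSRC R) {a b d : ℕ} (hb : 1 ≤ b) (h : P ι x a b d) :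
    a ≤ b * (d + 1) := by
  obtain ⟨M, h1, h2⟩ := h
  choose c hc using fun i j => V_rep ι x (h1 i j)
  by_contra! hlt
  let e : Fin (b * (d + 1) + 1) → Fin a := Fin.castLE hlt
  let N : Matrix (Fin (b * (d + 1))) (Fin (b * (d + 1) + 1)) R := Matrix.of fun i j =>
    c (finProdFinEquiv.symm i).1 (e j) (finProdFinEquiv.symm i).2
  refine hR _ (by nlinarith) ⟨⟨N.mulVec, N.mulVec_add⟩, fun r v => ?_⟩ ?_
  · ext i
    simp [mulVec, dotProduct, Finset.sum_mul, mul_assoc]
  · refine (injective_iff_map_eq_zero _).2 fun v hv => ?_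
    have := h2 (∑ j, Pi.single (e j) (ι (v j))) (funext fun i => ?_)
    · funext j
      have h3 := congrFun this (e j)
      rw [Finset.sum_apply, Finset.sum_eq_single j (fun k _ hk => Pi.single_eq_of_ne
        (fun h => hk (Fin.castLE_injective _ h).symm) _) (by simp)] at h3
      apply hι
      simpa using h3
    · have h3 : ∀ k, ∑ j, c i (e j) k * v j = 0 := fun k => by
        have := congrFun hv (finProdFinEquiv (i, k))
        simpa only [LinearMap.coe_mk, AddHom.coe_mk, mulVec, dotProduct, N, of_apply,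
          Equiv.symm_apply_apply, Pi.zero_apply] using this
      simp only [mulVec_sum, Finset.sum_apply, mulVec_single, Pi.smul_apply, col_apply,
        MulOpposite.smul_eq_mul_unop, MulOpposite.unop_op, hc, Finset.sum_mul, Pi.zero_apply]
      rw [Finset.sum_comm]
      simp only [mul_assoc, ← map_mul, ← Finset.mul_sum, ← map_sum, h3, map_zero, mul_zero,
        Finset.sum_const_zero]

end

lemma grow (n d : ℕ) (hn : 1 ≤ n) : ∃ t, n ^ t * (t * d + 1) < (n + 1) ^ t := by
  have hn' : (0 : ℝ) < n := by exact_mod_cast hn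
  have hr : (1 : ℝ) < (n + 1) / n := by rw [lt_div_iff₀ hn']; linarith
  obtain ⟨t, h1, h2⟩ := (((tendsto_pow_const_div_const_pow_of_one_lt 1 hr).eventually
    (gt_mem_nhds (show (0 : ℝ) < 1 / (d + 1) by positivity))).and
    (Filter.eventually_ge_atTop 1)).exists
  refine ⟨t, ?_⟩
  rw [div_lt_div_iff₀ (by positivity) (by positivity), div_pow, one_mul,
    lt_div_iff₀ (by positivity)] at h1
  have h3 : t ^ 1 * (d + 1) * n ^ t < (n + 1) ^ t := by exact_mod_cast h1
  refine lt_of_le_of_lt ?_ h3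
  rw [mul_comm]
  exact Nat.mul_le_mul_right _ (by nlinarith)

theorem result : ∀ (R S : Type) [Ring R] [Ring S] (σ : R →+* R) (δ : R →+ R) (ι : R →+* S) (x : S),
    (∀ r s, δ (r * s) = δ r * s + σ r * δ s) →
    (∀ r, x * ι r = ι (σ r) * x + ι (δ r)) →
    Bijective (fun p : ℕ →₀ R => p.sum fun i r => ι r * x ^ i) →
    Surjective σ → RSRC R → RSRC S := by
  intro R S _ _ σ δ ι x _ hx hb hσ hR n hn f hf
  have hι : Injective ι := fun a b h => Finsupp.single_injective 0 (hb.1 (by simpa using h))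
  have hall : ∀ s, ∃ d, s ∈ V ι x d := fun s => by
    obtain ⟨p, rfl⟩ := hb.2 s
    exact ⟨p.support.sup id, sum_mem fun i hi =>
      V_mono ι x (Finset.le_sup (f := id) hi) (V_left ι x hσ hx i _)⟩
  choose d hd using hall
  let M : Matrix (Fin n) (Fin (n + 1)) S := Matrix.of fun i j => f (Pi.single j 1) i
  have hP : P ι x (n + 1) n (Finset.univ.sup fun q : Fin n × Fin (n + 1) => d (M q.1 q.2)) := by
    refine ⟨M, fun i j => V_mono ι x (Finset.le_sup (f := fun q : Fin n × Fin (n + 1) =>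
      d (M q.1 q.2)) (Finset.mem_univ (i, j))) (hd _), fun v hv => hf ?_⟩
    have : v = ∑ j, MulOpposite.op (v j) • (Pi.single j 1 : Fin (n + 1) → S) := by
      ext i
      simp [Finset.sum_apply, Pi.single_apply]
    rw [map_zero, ← hv, this, map_sum, ← this]
    ext i
    simp [M, mulVec, dotProduct]
  obtain ⟨t, ht⟩ := grow n _ hn
  exact absurd (P_le ι x hι hR (Nat.one_le_pow _ _ hn) (P_pow ι x hσ hx hP t)) (not_le.2 ht)

end Pool.Agent.Results.MP_62e324_al.Pos
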